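import Pool.Agent.Q173.JD.Gen

/-!
# Independence of the counting functions of the copies `λ_j t^d + r_j(t)` for almost all real `λ_j`

Let `N(t)` be the number of nontrivial zeros of zeta with ordinate in `(0, t]`, with multiplicity, and
`M(t) = (t / 2π) log (t / 2π) - t / 2π`, `D = N - M`.  Let `d ≥ 1`.  For almost every vector `(λ_1, …, λ_k)` of positive real
numbers (Lebesgue measure) the following holds for ALL real polynomials `r_1, …, r_k` of degree less than `d`
(for `d = 1`: all real shifts).  Unconditionally, for `t` uniformly distributed in `(T, 2T]`, the normalised displacements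
`π D(λ_j t^d + r_j(t)) / √(log log T / 2)` are asymptotically independent standard normal variables, and every nontrivial
real linear combination `∑ c_j D(λ_j t^d + r_j(t))` is asymptotically normal with variance `∑ c_j² log log T / (2π²)`.

For `d = 1` these are the counting functions of the affine copies `(Γ - μ_j) / λ_j` of the multiset `Γ` of the ordinates
with generic real dilations.

Idea of the proof.  By the Borel-Cantelli lemma for almost every vector the numbers `∑ λ_j log (n_j / n_j')` with integers
`n_j, n_j' ≤ X^M` are zero only if trivially so, and otherwise at least a fixed negative power of `X`; so the exponential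
integrals of the phases `∑ (λ_j t^d + r_j(t)) log (n_j / n_j')` are small by van der Corput's first derivative test, and
the moments of linear combinations of the sums of `p^(-1/2-it)` over the primes `p ≤ T^(1 / log log T)` at the arguments
`λ_j t^d + r_j(t)` are those of independent random models.  In the mean `π D` is approximated by the imaginary part of
this sum (Selberg's method with his density theorem), also along the curves.
-/

open Filter Topology

namespace Pool.Agent.Results.MP_0ec205_nt.GenericCopies

/-- the number of nontrivial zeros of zeta with ordinate in `(0, t]`, counted with multiplicity -/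
noncomputable def N (t : ℝ) : ℕ :=
  ∑ᶠ s ∈ {s : ℂ | riemannZeta s = 0 ∧ 0 < s.re ∧ s.re < 1 ∧ 0 < s.im ∧ s.im ≤ t}, analyticOrderNatAt riemannZeta s

/-- the main term of the Riemann-von Mangoldt formula -/
noncomputable def M (t : ℝ) : ℝ := t / (2 * Real.pi) * Real.log (t / (2 * Real.pi)) - t / (2 * Real.pi)

/-- the displacement -/
noncomputable def D (t : ℝ) : ℝ := N t - M t

/-- the mass of `(a, b)` under the standard normal law -/
noncomputable def normalMass (a b : ℝ) : ℝ := ∫ x in a..b, Real.exp (-x ^ 2 / 2) / Real.sqrt (2 * Real.pi)

/-- the proportion of the `t` in `(T, 2T]` with the property `P` -/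
noncomputable def proportion (T : ℝ) (P : ℝ → Prop) : ℝ :=
  (MeasureTheory.volume {t : ℝ | T < t ∧ t ≤ 2 * T ∧ P t}).toReal / T

lemma D_eq (t : ℝ) : Pool.Agent.Q173.JL.Dd t = Real.pi * D t := by
  unfold Pool.Agent.Q173.JL.Dd Pool.Agent.Q173.JL.MM D M
  rw [← Pool.Agent.Q173.NL.NZ_eq]
  rfl

/-- **Theorem.** Let `d ≥ 1`.  For almost every real vector `(λ_1, …, λ_k)` (Lebesgue measure): if all `λ_j > 0`, then for
all real polynomials `r_j` of degree less than `d`, `t` in `(T, 2T]` and `T → ∞` the `k` numbers
`π D(λ_j t^d + r_j(t)) / √(log log T / 2)` are asymptotically independent standard normal variables, and for every real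
vector `c ≠ 0` the number `π (∑ c_j D(λ_j t^d + r_j(t))) / √(∑ c_j² · log log T / 2)` is asymptotically standard normal. -/
theorem result (k d : ℕ) (hd : 1 ≤ d) :
    ∀ᵐ lam : Fin k → ℝ, (∀ j, 0 < lam j) → ∀ r : Fin k → Polynomial ℝ, (∀ j, (r j).degree < d) →
    (∀ a b : Fin k → ℝ, (∀ j, a j < b j) →
      Tendsto (fun T : ℝ => proportion T fun t => ∀ j,
        a j < Real.pi * D (lam j * t ^ d + (r j).eval t) / Real.sqrt (Real.log (Real.log T) / 2) ∧
        Real.pi * D (lam j * t ^ d + (r j).eval t) / Real.sqrt (Real.log (Real.log T) / 2) < b j) atTop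
        (𝓝 (∏ j, normalMass (a j) (b j)))) ∧
    (∀ c : Fin k → ℝ, (∃ j, c j ≠ 0) → ∀ a b : ℝ, a < b →
      Tendsto (fun T : ℝ => proportion T fun t =>
        a < Real.pi * (∑ j, c j * D (lam j * t ^ d + (r j).eval t)) /
          Real.sqrt ((∑ j, c j ^ 2) * (Real.log (Real.log T) / 2)) ∧
        Real.pi * (∑ j, c j * D (lam j * t ^ d + (r j).eval t)) /
          Real.sqrt ((∑ j, c j ^ 2) * (Real.log (Real.log T) / 2)) < b) atTop
        (𝓝 (normalMass a b))) := by
  filter_upwards [Pool.Agent.Q173.JD.ae_gen k] with lam hlam hpos r hr
  exact Pool.Agent.Q173.JD.out (fun j t => lam j * t ^ d + (r j).eval t) (fun j => by fun_prop) D_eq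
    (Pool.Agent.Q173.JD.gen_char hd hlam hpos r hr)

end Pool.Agent.Results.MP_0ec205_nt.GenericCopies
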