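import Pool.Agent.Q173.JD.Ord

/-!
# The affine images of the ordinates themselves: independence of `D(λ_j γ + μ_j)`, `γ` running over the ordinates

Let `N(t)` be the number of nontrivial zeros of zeta with ordinate in `(0, t]`, with multiplicity,
`M(t) = (t / 2π) log (t / 2π) - t / 2π`, `D = N - M`, and `γ_1 ≤ γ_2 ≤ …` the positive ordinates, repeated according to
multiplicity.  The number `D(λγ + μ)` measures the displacement of the ordinates near the affine image `λγ + μ` of the
ordinate `γ`: if `λγ + μ` is itself an ordinate `γ_m` (a linear relation between `γ`, `γ_m` and `1`), then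
`D(λγ + μ)` is the difference between its index and the expected value of its index.

Unconditionally, for `γ` uniformly distributed among the ordinates in `(T, 2T]`, the normalised displacements
`π D(λ_j γ + μ_j) / √(log log T / 2)` are asymptotically independent standard normal variables, for all rational `λ_j > 0`
and real `μ_j` with distinct pairs `(λ_j, μ_j)` (for instance `(1, 0)`: the displacement of `γ` itself), and for almost all
real vectors `(λ_j)` and all real `μ_j`; the same for linear combinations.

Idea of the proof.  The law for `t` uniformly distributed in `(T, 2T]` (see the files `JointLawOfAffineCopies`,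
`GenericCopies`) is transferred to the ordinates: for a large constant `A` almost all windows of length `2π A / log T`
contain `A (1 + o(1))` ordinates (`A → ∞`), by the second moment of `N(t + 2π A / log T) - N(t)`, and the displacements at
`λ_j t + μ_j` change by a bounded amount in the mean while `t` runs through such a window.
-/

open Filter Topology

namespace Pool.Agent.Results.MP_0ec205_nt.JointLawAtOrdinates

/-- the number of nontrivial zeros of zeta with ordinate in `(0, t]`, counted with multiplicity -/
noncomputable def N (t : ℝ) : ℕ :=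
  ∑ᶠ s ∈ {s : ℂ | riemannZeta s = 0 ∧ 0 < s.re ∧ s.re < 1 ∧ 0 < s.im ∧ s.im ≤ t}, analyticOrderNatAt riemannZeta s

/-- for `n ≥ 1`: the `n`-th positive ordinate `γ n` of a nontrivial zero of zeta, the ordinates being listed in
nondecreasing order and repeated according to multiplicity -/
noncomputable def γ (n : ℕ) : ℝ := sInf {t : ℝ | n ≤ N t}

/-- the main term of the Riemann-von Mangoldt formula -/
noncomputable def M (t : ℝ) : ℝ := t / (2 * Real.pi) * Real.log (t / (2 * Real.pi)) - t / (2 * Real.pi)

/-- the displacement -/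
noncomputable def D (t : ℝ) : ℝ := N t - M t

/-- the mass of `(a, b)` under the standard normal law -/
noncomputable def normalMass (a b : ℝ) : ℝ := ∫ x in a..b, Real.exp (-x ^ 2 / 2) / Real.sqrt (2 * Real.pi)

/-- the proportion of the ordinates in `(T, 2T]` (with multiplicity) with the property `P` -/
noncomputable def proportion (T : ℝ) (P : ℝ → Prop) : ℝ :=
  ({n : ℕ | N T < n ∧ n ≤ N (2 * T) ∧ P (γ n)}.ncard : ℝ) / ((N (2 * T) : ℝ) - N T)

/-- for `γ` running over the ordinates in `(T, 2T]` and `T → ∞` the numbers `π D(λ_j γ + μ_j) / √(log log T / 2)` are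
asymptotically independent standard normal variables, and for every real vector `c ≠ 0` the number
`π (∑ c_j D(λ_j γ + μ_j)) / √(∑ c_j² · log log T / 2)` is asymptotically standard normal -/
def Independent {k : ℕ} (lam mu : Fin k → ℝ) : Prop :=
  (∀ a b : Fin k → ℝ, (∀ j, a j < b j) →
    Tendsto (fun T : ℝ => proportion T fun t => ∀ j,
      a j < Real.pi * D (lam j * t + mu j) / Real.sqrt (Real.log (Real.log T) / 2) ∧
      Real.pi * D (lam j * t + mu j) / Real.sqrt (Real.log (Real.log T) / 2) < b j) atTop
      (𝓝 (∏ j, normalMass (a j) (b j)))) ∧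
  (∀ c : Fin k → ℝ, (∃ j, c j ≠ 0) → ∀ a b : ℝ, a < b →
    Tendsto (fun T : ℝ => proportion T fun t =>
      a < Real.pi * (∑ j, c j * D (lam j * t + mu j)) / Real.sqrt ((∑ j, c j ^ 2) * (Real.log (Real.log T) / 2)) ∧
      Real.pi * (∑ j, c j * D (lam j * t + mu j)) / Real.sqrt ((∑ j, c j ^ 2) * (Real.log (Real.log T) / 2)) < b) atTop
      (𝓝 (normalMass a b)))

lemma D_eq (t : ℝ) : Pool.Agent.Q173.JL.Dd t = Real.pi * D t := by
  unfold Pool.Agent.Q173.JL.Dd Pool.Agent.Q173.JL.MM D M
  rw [← Pool.Agent.Q173.NL.NZ_eq]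
  rfl

lemma prop_eq {T : ℝ} (hT : 0 ≤ T) (P : ℝ → Prop) [DecidablePred fun n => P (SG.ord n)] :
    (((Pool.Agent.Q173.JD.SO T).filter fun n => P (SG.ord n)).card : ℝ) / (Pool.Agent.Q173.JD.SO T).card =
      proportion T P := by
  rw [Pool.Agent.Q173.JD.SO_card T hT]
  unfold proportion
  have e : {n : ℕ | N T < n ∧ n ≤ N (2 * T) ∧ P (γ n)} =
      ((Pool.Agent.Q173.JD.SO T).filter fun n => P (SG.ord n) : Finset ℕ) := by
    ext n
    simp only [Set.mem_ofPred_eq, Finset.coe_filter, Pool.Agent.Q173.JD.SO, Finset.mem_Ioc, and_assoc]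
    exact Iff.rfl
  rw [e, Set.ncard_coe_finset]
  rfl

lemma ind_of {k : ℕ} {lam mu : Fin k → ℝ} (hpos : ∀ j, 0 < lam j)
    (h : ∀ c : Fin k → ℝ, Tendsto (fun T => ∫ t, Complex.exp (Complex.I *
      ((∑ j, c j * (Pool.Agent.Q173.JD.zT T * Pool.Agent.Q173.JL.Dd (lam j * t + mu j)) : ℝ) : ℂ))
        ∂(Pool.Agent.Q173.JD.muT T)) atTop (𝓝 ((Real.exp (-(1 / 2 * ∑ j, c j ^ 2)) : ℝ) : ℂ))) :
    Independent lam mu := by
  obtain ⟨h1, h2⟩ := Pool.Agent.Q173.JD.outO (fun j t => lam j * t + mu j) (fun _ => by fun_prop) D_eq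
    (Pool.Agent.Q173.JD.ord_char hpos h)
  refine ⟨fun a b hab => (h1 a b hab).congr' ?_, fun c hc a b hab => (h2 c hc a b hab).congr' ?_⟩
  · filter_upwards [eventually_ge_atTop 0] with T hT
    exact prop_eq hT fun t => ∀ j,
      a j < Real.pi * D (lam j * t + mu j) / Real.sqrt (Real.log (Real.log T) / 2) ∧
      Real.pi * D (lam j * t + mu j) / Real.sqrt (Real.log (Real.log T) / 2) < b j
  · filter_upwards [eventually_ge_atTop 0] with T hT
    exact prop_eq hT fun t =>
      a < Real.pi * (∑ j, c j * D (lam j * t + mu j)) / Real.sqrt ((∑ j, c j ^ 2) * (Real.log (Real.log T) / 2)) ∧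
      Real.pi * (∑ j, c j * D (lam j * t + mu j)) / Real.sqrt ((∑ j, c j ^ 2) * (Real.log (Real.log T) / 2)) < b

/-- **Theorem.** The displacements at the affine images `λ_j γ + μ_j` of the ordinates `γ` are asymptotically independent
and normal (`Independent`) in both of the following cases: all `λ_j` are positive rational numbers, all `μ_j` are real and
the pairs `(λ_j, μ_j)` are distinct; for almost all real vectors `λ` (Lebesgue measure): all `λ_j > 0`, all `μ_j` real. -/
theorem result :
    (∀ (k : ℕ) (lam : Fin k → ℚ) (mu : Fin k → ℝ), (∀ j, 0 < lam j) → (Function.Injective fun j => (lam j, mu j)) →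
      Independent (fun j => (lam j : ℝ)) mu) ∧
    (∀ k : ℕ, ∀ᵐ lam : Fin k → ℝ, (∀ j, 0 < lam j) → ∀ mu : Fin k → ℝ, Independent lam mu) := by
  constructor
  · intro k lam mu hlam hinj
    exact ind_of (fun j => by exact_mod_cast hlam j)
      (Pool.Agent.Q173.JD.affine_char lam mu hlam fun i j h1 h2 => hinj (Prod.ext h1 h2))
  · intro k
    filter_upwards [Pool.Agent.Q173.JD.ae_gen k] with lam hlam hpos mu
    exact ind_of hpos (Pool.Agent.Q173.JD.aff_gen hlam hpos mu)

end Pool.Agent.Results.MP_0ec205_nt.JointLawAtOrdinates
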