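import Pool.Agent.Q173.JD.Out

/-!
# The counting functions of the affine copies of the ordinates are statistically independent

Let `N(t)` be the number of nontrivial zeros of zeta with ordinate in `(0, t]`, with multiplicity, and
`M(t) = (t / 2π) log (t / 2π) - t / 2π`.  For positive rational slopes `λ_j` and real shifts `μ_j` with distinct pairs
`(λ_j, μ_j)` the function `N(λ_j t + μ_j)` counts the elements of the affine copy `(Γ - μ_j) / λ_j` of the multiset `Γ` of
the ordinates.  Unconditionally, for `t` uniformly distributed in `(T, 2T]`, the normalised displacements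
`π (N - M)(λ_j t + μ_j) / √(log log T / 2)` are asymptotically independent standard normal variables, and every nontrivial
real linear combination `∑ c_j (N - M)(λ_j t + μ_j)` is asymptotically normal with variance `∑ c_j² log log T / (2π²)`: no
linear combination of the counting functions of different affine copies is smaller than that of independent copies.

Idea of the proof.  In the mean `π (N - M)` is approximated by the imaginary part of the sum of `p^(-1/2-it)` over the
primes `p ≤ T^(1 / log log T)` (Selberg's method with his density theorem).  Moments of linear combinations of these sums at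
the arguments `λ_j t + μ_j` agree up to a power of `T` with those of a random model, in which `p^(it/d)` (`d` a common
denominator of the slopes) is a uniform random point of the circle, independent for different `p`: two different integers
composed of few such primes are well separated.  In the model different powers of a point of the circle are orthogonal,
and different shifts decorrelate because of `∑_{p ≤ x} cos (c log p) / p = O(1)`.
-/

open Filter Topology

namespace Pool.Agent.Results.MP_0ec205_nt.JointLawOfAffineCopies

/-- the number of nontrivial zeros of zeta with ordinate in `(0, t]`, counted with multiplicity -/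
noncomputable def N (t : ℝ) : ℕ :=
  ∑ᶠ s ∈ {s : ℂ | riemannZeta s = 0 ∧ 0 < s.re ∧ s.re < 1 ∧ 0 < s.im ∧ s.im ≤ t}, analyticOrderNatAt riemannZeta s

/-- the main term of the Riemann-von Mangoldt formula -/
noncomputable def M (t : ℝ) : ℝ := t / (2 * Real.pi) * Real.log (t / (2 * Real.pi)) - t / (2 * Real.pi)

/-- the displacement -/
noncomputable def D (t : ℝ) : ℝ := N t - M t

/-- the mass of `(a, b)` under the standard normal law -/
noncomputable def normalMass (a b : ℝ) : ℝ := ∫ x in a..b, Real.exp (-x ^ 2 / 2) / Real.sqrt (2 * Real.pi)

/-- the proportion of the `t` in `(T, 2T]` with the property `P` -/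
noncomputable def proportion (T : ℝ) (P : ℝ → Prop) : ℝ :=
  (MeasureTheory.volume {t : ℝ | T < t ∧ t ≤ 2 * T ∧ P t}).toReal / T

lemma D_eq (t : ℝ) : Pool.Agent.Q173.JL.Dd t = Real.pi * D t := by
  unfold Pool.Agent.Q173.JL.Dd Pool.Agent.Q173.JL.MM D M
  rw [← Pool.Agent.Q173.NL.NZ_eq]
  rfl

/-- **Theorem.** Let `λ_j > 0` be rational and `μ_j` real, `j = 1, …, k`, with distinct pairs `(λ_j, μ_j)`.  For `t` in
`(T, 2T]` and `T → ∞` the `k` numbers `π D(λ_j t + μ_j) / √(log log T / 2)` are asymptotically independent standard normal
variables, and for every real vector `c ≠ 0` the number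
`π (∑ c_j D(λ_j t + μ_j)) / √(∑ c_j² · log log T / 2)` is asymptotically standard normal. -/
theorem result (k : ℕ) (lam : Fin k → ℚ) (mu : Fin k → ℝ) (hlam : ∀ j, 0 < lam j)
    (hinj : Function.Injective fun j => (lam j, mu j)) :
    (∀ a b : Fin k → ℝ, (∀ j, a j < b j) →
      Tendsto (fun T : ℝ => proportion T fun t => ∀ j,
        a j < Real.pi * D (lam j * t + mu j) / Real.sqrt (Real.log (Real.log T) / 2) ∧
        Real.pi * D (lam j * t + mu j) / Real.sqrt (Real.log (Real.log T) / 2) < b j) atTop
        (𝓝 (∏ j, normalMass (a j) (b j)))) ∧
    (∀ c : Fin k → ℝ, (∃ j, c j ≠ 0) → ∀ a b : ℝ, a < b →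
      Tendsto (fun T : ℝ => proportion T fun t =>
        a < Real.pi * (∑ j, c j * D (lam j * t + mu j)) / Real.sqrt ((∑ j, c j ^ 2) * (Real.log (Real.log T) / 2)) ∧
        Real.pi * (∑ j, c j * D (lam j * t + mu j)) / Real.sqrt ((∑ j, c j ^ 2) * (Real.log (Real.log T) / 2)) < b) atTop
        (𝓝 (normalMass a b))) :=
  Pool.Agent.Q173.JD.out (fun j t => lam j * t + mu j) (fun _ => by fun_prop) D_eq
    (Pool.Agent.Q173.JD.affine_char lam mu hlam fun i j h1 h2 => hinj (Prod.ext h1 h2))

end Pool.Agent.Results.MP_0ec205_nt.JointLawOfAffineCopies
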