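import Pool.Agent.Q5.ZP.Zeta

/-!
# The linear independence of the ordinates of the zeros of zeta and the random model for one error term

The linear independence conjecture, `RH ⟹ Γ⁺ is linearly independent over ℚ`, is equivalent to a statement on the
joint distribution of the shifts of one explicit error term in prime number theory at the central point.
-/

set_option autoImplicit false

open MeasureTheory Filter Topology Set Complex

namespace Pool.Agent.Results.MP_0ec205_nt.RandomModel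

/-- `R(x) = ∑_{p^k ≤ x} 1/(k p^{k/2})`; the index `z = (p, k - 1)` -/
noncomputable def primeSum (x : ℝ) : ℝ :=
  ∑ᶠ (z : Nat.Primes × ℕ) (_ : (z.1 : ℝ) ^ (z.2 + 1) ≤ x),
    1 / (((z.2 : ℝ) + 1) * √(z.1 : ℝ) ^ (z.2 + 1))

/-- the main term `∫_0^{log x} 2 sinh(v/2)/v dv = ∫_1^x (1 - 1/y) dy/(√y log y)` -/
noncomputable def mainTerm (x : ℝ) : ℝ := ∫ v in (0 : ℝ)..Real.log x, 2 * Real.sinh (v / 2) / v

/-- the error term `E(x) = log x · (log A - R(x) + ∫_0^{log x} 2 sinh(v/2)/v dv - ρ (γ + log log x))` (`γ` Euler's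
constant) -/
noncomputable def error (ρ A x : ℝ) : ℝ :=
  Real.log x * (Real.log A - primeSum x + mainTerm x -
    ρ * (Real.eulerMascheroniConstant + Real.log (Real.log x)))

/-- the multiplicity of the zero `1/2 + it` (`0` if it is not a zero) -/
noncomputable def mult (t : ℝ) : ℕ := (analyticOrderAt riemannZeta (1 / 2 + t * I)).toNat

/-- `Γ⁺`, the set of the positive ordinates on the critical line -/
def ordinates : Set ℝ := {t : ℝ | 0 < t ∧ riemannZeta (1 / 2 + t * I) = 0}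

/-- `Γ⁺` is linearly independent over `ℚ` -/
def Independent : Prop := LinearIndepOn ℚ id ordinates

/-- the zeros `1/2 + it`, `t > 0`, are simple -/
def Simple : Prop := ∀ t ∈ ordinates, deriv riemannZeta (1 / 2 + t * I) ≠ 0

/-- the Bessel function `J₀(x) = ∑ (-(x/2)²)^k/(k!)²` -/
noncomputable def J0 (x : ℝ) : ℝ := ∑' k : ℕ, (-(x / 2) ^ 2) ^ k / ((k.factorial : ℝ) ^ 2)

/-- the mean of `exp (i ∑ ξ_j E(x e^{h_j}))` with respect to `dx/x` over `[e, X]` -/
noncomputable def charMean (E : ℝ → ℝ) {k : ℕ} (h ξ : Fin k → ℝ) (X : ℝ) : ℂ :=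
  (∫ x in Real.exp 1..X, exp (((∑ j, ξ j * E (x * Real.exp (h j)) : ℝ) : ℂ) * I) / x) / Real.log X

/-- **The random model** with independent phases for the DISTINCT ordinates: for all `h_j ≥ 0` and real `ξ_j` the
means of `exp (i ∑ ξ_j E(x e^{h_j}))` tend to the product over `t > 0` of `J₀(2 m_t |∑ ξ_j e^{i t h_j}|/t)`, as for the
process `h ↦ 2 Re ∑_{t ∈ Γ⁺} (m_t/t) e^{ith} U_t` with independent `U_t`, uniform on the unit circle. -/
def Follows (E : ℝ → ℝ) : Prop :=
  ∀ (k : ℕ) (h ξ : Fin k → ℝ), (∀ j, 0 ≤ h j) →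
    ∃ L : ℂ, HasProd (fun t : ℝ =>
        (((if 0 < t then J0 (2 * (mult t * ‖∑ j, (ξ j : ℂ) * exp ((t * h j : ℝ) * I)‖ / t)) else 1) : ℝ) : ℂ)) L ∧
      Tendsto (charMean E h ξ) atTop (𝓝 L)

/-- The random model with independent phases for all ordinates counted with multiplicity: the same with the product
of the `J₀(2 |∑ ξ_j e^{i t h_j}|/t)^(m_t)`. -/
def FollowsMult (E : ℝ → ℝ) : Prop :=
  ∀ (k : ℕ) (h ξ : Fin k → ℝ), (∀ j, 0 ≤ h j) →
    ∃ L : ℂ, HasProd (fun t : ℝ =>
        (((if 0 < t then J0 (2 * (‖∑ j, (ξ j : ℂ) * exp ((t * h j : ℝ) * I)‖ / t)) ^ mult t else 1) : ℝ) : ℂ)) L ∧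
      Tendsto (charMean E h ξ) atTop (𝓝 L)

/-- `(log X)⁻¹ ∫_e^X E(x)² dx/x` is bounded for large `X` -/
def BoundedMeanSquare (E : ℝ → ℝ) : Prop :=
  ∃ B : ℝ, ∀ᶠ X : ℝ in atTop, ∫ x in Real.exp 1..X, E x ^ 2 / x ≤ B * Real.log X

/-- the constant `-ζ(1/2)` -/
noncomputable def A₀ : ℝ := -(riemannZeta (1 / 2)).re

/-! ### proofs -/

open Pool.Agent.Q5.LI Pool.Agent.Q5.ZP

theorem main_eq (x : ℝ) : mainTerm x = ∫ v in (0 : ℝ)..Real.log x, wt v := by
  unfold mainTerm wt
  congr 1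
  funext v
  rw [Real.sinh_eq]
  congr 1
  ring

theorem error_eq (ρ A x : ℝ) : error ρ A x = Real.log x * dZ a1 1 ρ A x := by
  unfold error dZ
  rw [main_eq, Pl_1, Nat.cast_one, one_mul]
  rfl

theorem mean_eq {ρ A : ℝ} {k : ℕ} (h ξ : Fin k → ℝ) : charMean (error ρ A) h ξ =
    fun X : ℝ => (∫ x in Real.exp 1..X, exp (((∑ j, ξ j * (Real.log (x * Real.exp (h j)) *
      dZ a1 1 ρ A (x * Real.exp (h j))) : ℝ) : ℂ) * I) / x) / Real.log X := by
  funext X
  unfold charMean
  simp only [error_eq]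

theorem follows_eq (ρ A : ℝ) : Follows (error ρ A) ↔
    RandomModelS (multH riemannZeta) fun x => Real.log x * dZ a1 1 ρ A x := by
  unfold Follows RandomModelS
  refine forall_congr' fun k => forall_congr' fun h' => forall_congr' fun ξ => forall_congr' fun hh => ?_
  refine exists_congr fun L => ?_
  rw [mean_eq]
  refine and_congr_left fun _ => ?_
  have e : ∀ t : ℝ, (if 0 < t then J0 (2 * (mult t * ‖∑ j, (ξ j : ℂ) * exp ((t * h' j : ℝ) * I)‖ / t)) else 1) =
      facS (multH riemannZeta) (kf h' ξ t) t := by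
    intro t
    unfold facS
    split_ifs with ht
    · unfold J0 bz bt kf
      refine tsum_congr fun k => ?_
      rw [norm_div, norm_mul, Complex.norm_natCast, Complex.norm_real, Real.norm_of_nonneg ht.le,
        mul_div_cancel_left₀ _ two_ne_zero]
      rfl
    · rfl
  simp only [e]

theorem followsM_eq (ρ A : ℝ) : FollowsMult (error ρ A) ↔
    Pool.Agent.Q5.LI.RandomModel (multH riemannZeta) fun x => Real.log x * dZ a1 1 ρ A x := by
  unfold FollowsMult Pool.Agent.Q5.LI.RandomModel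
  refine forall_congr' fun k => forall_congr' fun h' => forall_congr' fun ξ => forall_congr' fun hh => ?_
  refine exists_congr fun L => ?_
  rw [mean_eq]
  refine and_congr_left fun _ => ?_
  have e : ∀ t : ℝ, (if 0 < t then J0 (2 * (‖∑ j, (ξ j : ℂ) * exp ((t * h' j : ℝ) * I)‖ / t)) ^ mult t else 1) =
      fac (multH riemannZeta) (kf h' ξ t) t := by
    intro t
    unfold fac
    split_ifs with ht
    · congr 1
      unfold J0 bz bt kf
      refine tsum_congr fun k => ?_
      rw [norm_div, Complex.norm_real, Real.norm_of_nonneg ht.le, mul_div_cancel_left₀ _ two_ne_zero]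
    · rfl
  simp only [e]

theorem bounded_eq (ρ A : ℝ) : BoundedMeanSquare (error ρ A) ↔ Pool.Agent.Q5.BP.BSq (dZ a1 1 ρ A) := by
  unfold BoundedMeanSquare Pool.Agent.Q5.BP.BSq
  simp only [error_eq]

theorem set_eq : {t : ℝ | 0 < t ∧ multH riemannZeta t ≠ 0} = ordinates := by
  ext t
  simp only [Set.mem_ofPred_eq, ordinates]
  rw [mult_zero_iff]

theorem linS_iff : LinS (multH riemannZeta) ↔ Independent := by
  unfold LinS Independent
  rw [set_eq]

theorem linInd_iff : LinInd (multH riemannZeta) ↔ Simple ∧ Independent := by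
  unfold LinInd Independent Simple
  rw [set_eq]
  refine and_congr_left fun _ => ?_
  constructor
  · rintro h t ⟨h1, h2⟩
    exact (simple_iff t).1 (h t h1) h2
  · intro h t h1
    exact (simple_iff t).2 fun h2 => h t ⟨h1, h2⟩

/-- **The linear independence conjecture and the random model.** -/
theorem result :
    -- `-ζ(1/2)` is a positive real number
    (0 < A₀ ∧ -riemannZeta (1 / 2) = (A₀ : ℂ)) ∧
    -- the criteria, for all constants
    (∀ ρ A : ℝ, 0 < A →
      (BoundedMeanSquare (error ρ A) ↔ RiemannHypothesis ∧ ρ = 0 ∧ A = A₀) ∧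
      (BoundedMeanSquare (error ρ A) ∧ Follows (error ρ A) ↔
        (RiemannHypothesis ∧ Independent) ∧ ρ = 0 ∧ A = A₀) ∧
      (BoundedMeanSquare (error ρ A) ∧ FollowsMult (error ρ A) ↔
        (RiemannHypothesis ∧ Simple ∧ Independent) ∧ ρ = 0 ∧ A = A₀)) ∧
    -- the conjecture
    ((RiemannHypothesis → Independent) ↔ (BoundedMeanSquare (error 0 A₀) → Follows (error 0 A₀))) := by
  obtain ⟨c, hc, hz⟩ := zeta_half
  have hA : A₀ = c := by
    have := congrArg Complex.re hz
    unfold A₀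
    simpa using this
  have hA0 : 0 < A₀ := by rw [hA]; exact hc
  have key : ∀ ρ A : ℝ, 0 < A →
      (BoundedMeanSquare (error ρ A) ↔ RiemannHypothesis ∧ ρ = 0 ∧ A = A₀) ∧
      (BoundedMeanSquare (error ρ A) ∧ Follows (error ρ A) ↔
        (RiemannHypothesis ∧ Independent) ∧ ρ = 0 ∧ A = A₀) ∧
      (BoundedMeanSquare (error ρ A) ∧ FollowsMult (error ρ A) ↔
        (RiemannHypothesis ∧ Simple ∧ Independent) ∧ ρ = 0 ∧ A = A₀) := by
    intro ρ A hA
    have h0 : LeadP riemannZeta 1 ρ A ↔ ρ = 0 ∧ A = A₀ := leadP_zeta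
    refine ⟨?_, ?_, ?_⟩
    · rw [bounded_eq, ← rh_iff, ← h0]
      exact ((errP roots_1 temp_1 hA).2.1.out 0 1).symm
    · rw [bounded_eq, follows_eq, ← set_tfaeP roots_1 temp_1 hA, h0, rh_iff, linS_iff]
      tauto
    · rw [bounded_eq, followsM_eq, ← li_tfaeP roots_1 temp_1 hA, h0, rh_iff, linInd_iff]
      tauto
  refine ⟨⟨hA0, by rw [hz, hA]⟩, key, ?_⟩
  obtain ⟨h1, h2, -⟩ := key 0 A₀ hA0
  have e1 : BoundedMeanSquare (error 0 A₀) ↔ RiemannHypothesis :=
    h1.trans ⟨fun h => h.1, fun h => ⟨h, rfl, rfl⟩⟩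
  have e2 : BoundedMeanSquare (error 0 A₀) ∧ Follows (error 0 A₀) ↔ RiemannHypothesis ∧ Independent :=
    h2.trans ⟨fun h => h.1, fun h => ⟨h, rfl, rfl⟩⟩
  constructor
  · intro h hb
    exact (e2.2 ⟨e1.1 hb, h (e1.1 hb)⟩).2
  · intro h hr
    exact (e2.1 ⟨e1.2 hr, h (e1.2 hr)⟩).2

end Pool.Agent.Results.MP_0ec205_nt.RandomModel
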